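import Mathlib

set_option autoImplicit false

namespace Pool.Agent.Results.MP_d0ed5b_an.RealPlane

/-- numerical radius of an operator on a real normed space -/
noncomputable def numRadius {X : Type} [NormedAddCommGroup X] [NormedSpace ℝ X]
    (T : X →L[ℝ] X) : ℝ :=
  sSup {r | ∃ (x : X) (φ : X →L[ℝ] ℝ), ‖x‖ = 1 ∧ ‖φ‖ = 1 ∧ φ x = 1 ∧ r = |φ (T x)|}

/-- rank-one numerical index of a real normed space -/
noncomputable def n1 (X : Type) [NormedAddCommGroup X] [NormedSpace ℝ X] : ℝ :=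
  sInf {r | ∃ T : X →L[ℝ] X, Module.finrank ℝ (LinearMap.range (T : X →ₗ[ℝ] X)) = 1 ∧ ‖T‖ = 1 ∧
    r = numRadius T}

/-- the constant `1 / (p^(1/p) q^(1/q))`, `q = p/(p-1)` -/
noncomputable def kappa (p : ℝ) : ℝ :=
  1 / (p ^ (1 / p) * (p / (p - 1)) ^ (1 / (p / (p - 1))))

/-- `1 ≤ 4`, needed for the norm on `PiLp 4` -/
instance fact4 : Fact (1 ≤ (4 : ENNReal)) := ⟨by norm_num⟩

/-- the real space `ℓ_4^2` -/
abbrev E : Type := PiLp 4 (fun _ : Fin 2 => ℝ)

lemma norm4 (x : E) : ‖x‖ ^ 4 = x 0 ^ 4 + x 1 ^ 4 := by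
  rw [PiLp.norm_eq_sum (by norm_num) x]
  have h4 : (4 : ENNReal).toReal = ((4 : ℕ) : ℝ) := by norm_num
  rw [h4, Fin.sum_univ_two, one_div, Real.rpow_inv_natCast_pow (by positivity) (by norm_num),
    Real.rpow_natCast, Real.rpow_natCast, Real.norm_eq_abs, Real.norm_eq_abs,
    Even.pow_abs (by decide), Even.pow_abs (by decide)]

lemma support (x : E) (φ : E →L[ℝ] ℝ) (hx : ‖x‖ = 1) (hφ : ‖φ‖ = 1) (h : φ x = 1) (y : E) :
    φ y = x 0 ^ 3 * y 0 + x 1 ^ 3 * y 1 := by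
  have hx4 : x 0 ^ 4 + x 1 ^ 4 = 1 := by rw [← norm4, hx]; norm_num
  have hmin : IsLocalMin (fun t : ℝ =>
      (x 0 + t * y 0) ^ 4 + (x 1 + t * y 1) ^ 4 - (1 + t * φ y) ^ 4) 0 := by
    apply Filter.Eventually.of_forall
    intro t
    have h1 := φ.le_opNorm (x + t • y)
    rw [hφ, one_mul, map_add, map_smul, h, smul_eq_mul, Real.norm_eq_abs] at h1
    have h2 := pow_le_pow_left₀ (abs_nonneg _) h1 4
    rw [norm4, Even.pow_abs (by decide)] at h2
    simp only [PiLp.add_apply, PiLp.smul_apply, smul_eq_mul] at h2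
    simp only [zero_mul, add_zero]
    linarith
  have hd : HasDerivAt (fun t : ℝ =>
      (x 0 + t * y 0) ^ 4 + (x 1 + t * y 1) ^ 4 - (1 + t * φ y) ^ 4)
      (4 * x 0 ^ 3 * y 0 + 4 * x 1 ^ 3 * y 1 - 4 * φ y) 0 := by
    have e : ∀ a b : ℝ, HasDerivAt (fun t : ℝ => (a + t * b) ^ 4) (4 * a ^ 3 * b) 0 := by
      intro a b
      have := (((hasDerivAt_id (0 : ℝ)).mul_const b).const_add a).fun_pow 4
      refine HasDerivAt.congr_deriv this ?_
      simp
    have := ((e (x 0) (y 0)).fun_add (e (x 1) (y 1))).fun_sub (e 1 (φ y))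
    refine HasDerivAt.congr_deriv this ?_
    ring
  have := hmin.hasDerivAt_eq_zero hd
  linarith

/-- the functional `64 x₀ + 343 x₁` -/
noncomputable def f : E →L[ℝ] ℝ :=
  (64 : ℝ) • PiLp.proj 4 (fun _ : Fin 2 => ℝ) 0 + (343 : ℝ) • PiLp.proj 4 (fun _ : Fin 2 => ℝ) 1

lemma f_apply (x : E) : f x = 64 * x 0 + 343 * x 1 := by simp [f]

/-- the vector `(-2, 1)` -/
noncomputable def w : E := WithLp.toLp 4 ![-2, 1]

/-- the test vector `(4, 7)` -/
noncomputable def z : E := WithLp.toLp 4 ![4, 7]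

/-- the rank-one operator -/
noncomputable def S : E →L[ℝ] E := f.smulRight w

lemma S_norm : (2657 : ℝ) ^ 3 * 17 ≤ ‖S‖ ^ 4 := by
  have h1 := pow_le_pow_left₀ (norm_nonneg _) (S.le_opNorm z) 4
  rw [mul_pow, norm4, norm4] at h1
  have e0 : S z 0 = -5314 := by simp [S, f_apply, w, z]; norm_num
  have e1 : S z 1 = 2657 := by simp [S, f_apply, w, z]; norm_num
  have e2 : z 0 = 4 := by simp [z]
  have e3 : z 1 = 7 := by simp [z]
  rw [e0, e1, e2, e3] at h1
  linarith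

lemma quartic (a b : ℝ) : |(64 * a + 343 * b) * (a ^ 3 * (-2) + b ^ 3 * 1)| ≤ 427 * (a ^ 4 + b ^ 4) := by
  rw [abs_le]
  constructor
  · nlinarith [sq_nonneg (299 * a ^ 2 - 343 * a * b - 285 * b ^ 2),
      sq_nonneg (52781 * a * b - 88187 * b ^ 2), sq_nonneg (b ^ 2)]
  · nlinarith [sq_nonneg (555 * a ^ 2 + 343 * a * b - 150 * b ^ 2), sq_nonneg (a * b + b ^ 2),
      sq_nonneg (b ^ 2), sq_nonneg (a * b + 0.5 * b ^ 2), sq_nonneg (a * b + 0.7 * b ^ 2)]

lemma kappa4 : (kappa 4) ^ 4 = 27 / 256 := by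
  unfold kappa
  have h1 : ((4 : ℝ) ^ ((1 : ℝ) / 4)) ^ 4 = 4 := by
    rw [← Real.rpow_natCast, ← Real.rpow_mul (by norm_num)]; norm_num
  have h2 : (((4 : ℝ) / (4 - 1)) ^ (1 / ((4 : ℝ) / (4 - 1)))) ^ 4 = 64 / 27 := by
    rw [← Real.rpow_natCast, ← Real.rpow_mul (by norm_num)]
    rw [show (1 / ((4 : ℝ) / (4 - 1))) * ((4 : ℕ) : ℝ) = ((3 : ℕ) : ℝ) by norm_num,
      Real.rpow_natCast]
    norm_num
  rw [div_pow, mul_pow, h1, h2]
  norm_num

/-- The rank-one numerical index of the real space `ℓ_4^2` is smaller than `κ_4`. -/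
theorem result : n1 (PiLp 4 (fun _ : Fin 2 => ℝ)) < kappa 4 := by
  have hN := S_norm
  have hN0 : 0 < ‖S‖ := by
    by_contra h
    have : ‖S‖ = 0 := le_antisymm (not_lt.1 h) (norm_nonneg _)
    rw [this] at hN
    norm_num at hN
  set T : E →L[ℝ] E := ‖S‖⁻¹ • S with hT
  have hT1 : ‖T‖ = 1 := by
    rw [hT, norm_smul, norm_inv, norm_norm, inv_mul_cancel₀ hN0.ne']
  have hw : w ≠ 0 := by
    intro h
    have := congrArg (fun v : E => v 1) h
    simp [w] at this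
  have hrank : Module.finrank ℝ (LinearMap.range (T : E →ₗ[ℝ] E)) = 1 := by
    have : LinearMap.range (T : E →ₗ[ℝ] E) = Submodule.span ℝ {w} := by
      apply le_antisymm
      · rintro _ ⟨x, rfl⟩
        rw [Submodule.mem_span_singleton]
        exact ⟨‖S‖⁻¹ * f x, by simp [hT, S, mul_smul]⟩
      · rw [Submodule.span_singleton_le_iff_mem]
        refine ⟨(‖S‖ / 2657) • z, ?_⟩
        have hz : f z = 2657 := by simp [f_apply, z]; norm_num
        simp only [hT, S, ContinuousLinearMap.coe_coe, ContinuousLinearMap.smul_apply,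
          ContinuousLinearMap.smulRight_apply, map_smul, hz, smul_smul]
        rw [show ‖f.smulRight w‖ / 2657 * (‖f.smulRight w‖⁻¹ * 2657) = 1 by
          have : ‖f.smulRight w‖ ≠ 0 := hN0.ne'
          field_simp, one_smul]
    rw [this, finrank_span_singleton hw]
  have hv : numRadius T ≤ 427 / ‖S‖ := by
    apply Real.sSup_le _ (by positivity)
    rintro r ⟨x, φ, hx, hφ, h1, rfl⟩
    have hx4 : x 0 ^ 4 + x 1 ^ 4 = 1 := by rw [← norm4, hx]; norm_num
    have h2 : φ (T x) = ‖S‖⁻¹ * ((64 * x 0 + 343 * x 1) * (x 0 ^ 3 * (-2) + x 1 ^ 3 * 1)) := by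
      have h3 := support x φ hx hφ h1 w
      simp only [hT, S, ContinuousLinearMap.smul_apply, ContinuousLinearMap.smulRight_apply,
        map_smul, smul_eq_mul, h3, f_apply]
      simp [w]
    have h4 := quartic (x 0) (x 1)
    rw [hx4, mul_one (427 : ℝ)] at h4
    rw [h2, abs_mul, abs_of_pos (inv_pos.2 hN0), div_eq_inv_mul]
    gcongr
  have hle : n1 E ≤ numRadius T := by
    apply csInf_le
    · refine ⟨0, ?_⟩
      rintro r ⟨T', -, -, rfl⟩
      apply Real.sSup_nonneg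
      rintro r ⟨x, φ, -, -, -, rfl⟩
      exact abs_nonneg _
    · exact ⟨T, hrank, hT1, rfl⟩
  refine lt_of_le_of_lt (hle.trans hv) ?_
  have hk : 0 ≤ kappa 4 := by unfold kappa; positivity
  apply lt_of_pow_lt_pow_left₀ 4 hk
  rw [kappa4, div_pow, div_lt_div_iff₀ (by positivity) (by norm_num)]
  linarith

end Pool.Agent.Results.MP_d0ed5b_an.RealPlane
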